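import Mathlib

/-!
List colourings of bipartite multigraphs (Galvin's theorem), in a form with vertex capacities.
A bipartite multigraph is a finite type `E` of edges with two maps `α : E → X`, `β : E → Y`.
-/

open Finset

namespace Pool.Agent.helper60.Galvin

variable {E X Y : Type*}

/-- Existence of kernels: a stable matching argument. -/
lemma exists_kernel [DecidableEq E] (α : E → X) (β : E → Y) (f : E → ℕ) (S : Finset E)
    (hα : ∀ e ∈ S, ∀ e' ∈ S, α e = α e' → f e = f e' → e = e')
    (hβ : ∀ e ∈ S, ∀ e' ∈ S, β e = β e' → f e = f e' → e = e') :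
    ∃ K ⊆ S, (∀ e ∈ K, ∀ e' ∈ K, e ≠ e' → α e ≠ α e' ∧ β e ≠ β e') ∧
      ∀ e ∈ S, e ∉ K → ∃ e' ∈ K, (α e' = α e ∧ f e < f e') ∨ (β e' = β e ∧ f e' < f e) := by
  classical
  induction hn : S.card generalizing S with
  | zero =>
    rw [Finset.card_eq_zero] at hn
    subst hn
    exact ⟨∅, by simp, by simp, by simp⟩
  | succ n ih =>
    by_cases hex : ∃ e1 ∈ S, ∃ e2 ∈ S, (∀ e ∈ S, α e = α e1 → f e ≤ f e1) ∧ β e1 = β e2 ∧
        f e1 < f e2
    · obtain ⟨e1, h1, e2, h2, htop, hb, hf⟩ := hex
      have hne : e1 ≠ e2 := fun h => by subst h; exact lt_irrefl _ hf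
      obtain ⟨K, hKS, hK1, hK2⟩ := ih (S.erase e2)
        (fun e he e' he' => hα e (Finset.mem_of_mem_erase he) e' (Finset.mem_of_mem_erase he'))
        (fun e he e' he' => hβ e (Finset.mem_of_mem_erase he) e' (Finset.mem_of_mem_erase he'))
        (by rw [Finset.card_erase_of_mem h2, hn]; rfl)
      refine ⟨K, hKS.trans (Finset.erase_subset _ _), hK1, ?_⟩
      intro e he heK
      by_cases hee : e = e2
      · subst hee
        by_cases h1K : e1 ∈ K
        · exact ⟨e1, h1K, Or.inr ⟨hb, hf⟩⟩
        · obtain ⟨e', he'K, h | h⟩ := hK2 e1 (Finset.mem_erase.2 ⟨hne, h1⟩) h1K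
          · exfalso
            have := htop e' (Finset.mem_of_mem_erase (hKS he'K)) h.1
            omega
          · exact ⟨e', he'K, Or.inr ⟨h.1.trans hb, h.2.trans hf⟩⟩
      · exact hK2 e (Finset.mem_erase.2 ⟨hee, he⟩) heK
    · push Not at hex
      refine ⟨S.filter (fun e1 => ∀ e ∈ S, α e = α e1 → f e ≤ f e1), Finset.filter_subset _ _,
        ?_, ?_⟩
      · intro e he e' he' hne
        rw [Finset.mem_filter] at he he'
        refine ⟨fun h => ?_, fun h => ?_⟩
        · have h1 := he.2 e' he'.1 h.symm
          have h2 := he'.2 e he.1 h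
          exact hne (hα e he.1 e' he'.1 h (le_antisymm h2 h1))
        · have h1 := hex e he.1 e' he'.1 he.2 h
          have h2 := hex e' he'.1 e he.1 he'.2 h.symm
          exact hne (hβ e he.1 e' he'.1 h (le_antisymm h2 h1))
      · intro e he _
        have hne : (S.filter (fun e' => α e' = α e)).Nonempty := ⟨e, by simp [he]⟩
        obtain ⟨e', he', hmax⟩ := Finset.exists_max_image _ f hne
        rw [Finset.mem_filter] at he'
        refine ⟨e', ?_, Or.inl ⟨he'.2, ?_⟩⟩
        · rw [Finset.mem_filter]
          refine ⟨he'.1, fun e'' he'' h => hmax e'' ?_⟩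
          rw [Finset.mem_filter]
          exact ⟨he'', h.trans he'.2⟩
        · have h1 : f e ≤ f e' := hmax e (by rw [Finset.mem_filter]; exact ⟨he, rfl⟩)
          rcases Nat.lt_or_ge (f e) (f e') with h | h
          · exact h
          · exfalso
            have : e = e' := hα e he e' he'.1 he'.2.symm (le_antisymm h1 h)
            subst this
            rename_i hnot
            apply hnot
            rw [Finset.mem_filter]
            refine ⟨he, fun e'' he'' h => hmax e'' ?_⟩
            rw [Finset.mem_filter]
            exact ⟨he'', h⟩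

/-- Galvin's theorem, kernel induction. -/
lemma galvin_aux [DecidableEq E] (α : E → X) (β : E → Y) (f : E → ℕ)
    [DecidableEq X] [DecidableEq Y] (S : Finset E) (L : E → Finset ℕ)
    (hα : ∀ e ∈ S, ∀ e' ∈ S, α e = α e' → f e = f e' → e = e')
    (hβ : ∀ e ∈ S, ∀ e' ∈ S, β e = β e' → f e = f e' → e = e')
    (hL : ∀ e ∈ S, (S.filter (fun e' => (α e' = α e ∧ f e < f e') ∨ (β e' = β e ∧ f e' < f e))).card
      < (L e).card) :
    ∃ c : E → ℕ, (∀ e ∈ S, c e ∈ L e) ∧
      ∀ e ∈ S, ∀ e' ∈ S, e ≠ e' → (α e = α e' ∨ β e = β e') → c e ≠ c e' := by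
  classical
  induction hn : S.card using Nat.strong_induction_on generalizing S L with
  | _ n ih =>
    rcases S.eq_empty_or_nonempty with hS | ⟨e0, he0⟩
    · subst hS
      exact ⟨fun _ => 0, by simp, by simp⟩
    · have hpos : 0 < (L e0).card := lt_of_le_of_lt (Nat.zero_le _) (hL e0 he0)
      obtain ⟨x, hx⟩ := Finset.card_pos.1 hpos
      let T := S.filter (fun e => x ∈ L e)
      have hTS : T ⊆ S := Finset.filter_subset _ _
      obtain ⟨K, hKT, hK1, hK2⟩ := exists_kernel α β f T
        (fun e he e' he' => hα e (hTS he) e' (hTS he'))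
        (fun e he e' he' => hβ e (hTS he) e' (hTS he'))
      have he0T : e0 ∈ T := by simp [T, he0, hx]
      have hKne : K.Nonempty := by
        by_contra hemp
        rw [Finset.not_nonempty_iff_eq_empty] at hemp
        obtain ⟨e', he', _⟩ := hK2 e0 he0T (by rw [hemp]; simp)
        rw [hemp] at he'
        simp at he'
      have hKS : K ⊆ S := hKT.trans hTS
      have hcard : (S \ K).card < n := by
        rw [← hn, Finset.card_sdiff_of_subset hKS]
        have := Finset.card_pos.2 hKne
        have := Finset.card_le_card hKS
        omega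
      obtain ⟨c, hc1, hc2⟩ := ih _ hcard (S \ K) (fun e => (L e).erase x)
        (fun e he e' he' => hα e (Finset.sdiff_subset he) e' (Finset.sdiff_subset he'))
        (fun e he e' he' => hβ e (Finset.sdiff_subset he) e' (Finset.sdiff_subset he')) (by
          intro e he
          have heS : e ∈ S := Finset.sdiff_subset he
          have heK : e ∉ K := (Finset.mem_sdiff.1 he).2
          have hsub : (S \ K).filter
              (fun e' => (α e' = α e ∧ f e < f e') ∨ (β e' = β e ∧ f e' < f e)) ⊆
              S.filter (fun e' => (α e' = α e ∧ f e < f e') ∨ (β e' = β e ∧ f e' < f e)) :=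
            Finset.filter_subset_filter _ Finset.sdiff_subset
          by_cases hxe : x ∈ L e
          · have heT : e ∈ T := by simp [T, heS, hxe]
            obtain ⟨e', he'K, hdom⟩ := hK2 e heT heK
            have hlt : ((S \ K).filter
              (fun e' => (α e' = α e ∧ f e < f e') ∨ (β e' = β e ∧ f e' < f e))).card <
              (S.filter
                (fun e' => (α e' = α e ∧ f e < f e') ∨ (β e' = β e ∧ f e' < f e))).card := by
              refine Finset.card_lt_card ⟨hsub, fun h => ?_⟩
              have : e' ∈ (S \ K).filter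
                (fun e' => (α e' = α e ∧ f e < f e') ∨ (β e' = β e ∧ f e' < f e)) := by
                apply h
                rw [Finset.mem_filter]
                exact ⟨hKS he'K, hdom⟩
              rw [Finset.mem_filter, Finset.mem_sdiff] at this
              exact this.1.2 he'K
            have := hL e heS
            rw [Finset.card_erase_of_mem hxe]
            omega
          · rw [Finset.erase_eq_of_notMem hxe]
            exact lt_of_le_of_lt (Finset.card_le_card hsub) (hL e heS)) rfl
      refine ⟨fun e => if e ∈ K then x else c e, ?_, ?_⟩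
      · intro e he
        by_cases heK : e ∈ K
        · simp only [if_pos heK]
          exact (Finset.mem_filter.1 (hKT heK)).2
        · simp only [if_neg heK]
          exact Finset.mem_of_mem_erase (hc1 e (Finset.mem_sdiff.2 ⟨he, heK⟩))
      · intro e he e' he' hne hadj
        by_cases heK : e ∈ K
        · by_cases he'K : e' ∈ K
          · exfalso
            have := hK1 e heK e' he'K hne
            rcases hadj with h | h
            · exact this.1 h
            · exact this.2 h
          · simp only [if_pos heK, if_neg he'K]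
            have := Finset.ne_of_mem_erase (hc1 e' (Finset.mem_sdiff.2 ⟨he', he'K⟩))
            exact fun h => this h.symm
        · by_cases he'K : e' ∈ K
          · simp only [if_neg heK, if_pos he'K]
            exact Finset.ne_of_mem_erase (hc1 e (Finset.mem_sdiff.2 ⟨he, heK⟩))
          · simp only [if_neg heK, if_neg he'K]
            exact hc2 e (Finset.mem_sdiff.2 ⟨he, heK⟩) e' (Finset.mem_sdiff.2 ⟨he', he'K⟩) hne hadj

/-- Galvin's theorem, given a proper edge colouring `f` with `k` colours. -/
lemma galvin_of_coloring [Fintype E] (α : E → X) (β : E → Y) (f : E → ℕ) (k : ℕ)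
    (hf : ∀ e, f e < k)
    (hα : ∀ e e', α e = α e' → f e = f e' → e = e')
    (hβ : ∀ e e', β e = β e' → f e = f e' → e = e')
    (L : E → Finset ℕ) (hL : ∀ e, k ≤ (L e).card) :
    ∃ c : E → ℕ, (∀ e, c e ∈ L e) ∧ (∀ e e', α e = α e' → c e = c e' → e = e') ∧
      (∀ e e', β e = β e' → c e = c e' → e = e') := by
  classical
  obtain ⟨c, h1, h2⟩ := galvin_aux α β f univ L (fun e _ e' _ => hα e e') (fun e _ e' _ => hβ e e')
    (by
      intro e _
      refine lt_of_lt_of_le ?_ (hL e)
      have hA : (univ.filter (fun e' => α e' = α e ∧ f e < f e')).card ≤ k - 1 - f e := by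
        have : ((univ.filter (fun e' => α e' = α e ∧ f e < f e')).image f).card ≤
            (Finset.Ico (f e + 1) k).card := by
          refine Finset.card_le_card ?_
          intro y hy
          simp only [mem_image, mem_filter, mem_univ, true_and] at hy
          obtain ⟨e', he', rfl⟩ := hy
          rw [Finset.mem_Ico]
          exact ⟨he'.2, hf e'⟩
        rw [Finset.card_image_of_injOn] at this
        · rw [Nat.card_Ico] at this
          omega
        · intro a ha b hb hab
          simp only [coe_filter, mem_univ, true_and, Set.mem_ofPred_eq] at ha hb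
          exact hα a b (ha.1.trans hb.1.symm) hab
      have hB : (univ.filter (fun e' => β e' = β e ∧ f e' < f e)).card ≤ f e := by
        have : ((univ.filter (fun e' => β e' = β e ∧ f e' < f e)).image f).card ≤
            (Finset.range (f e)).card := by
          refine Finset.card_le_card ?_
          intro y hy
          simp only [mem_image, mem_filter, mem_univ, true_and] at hy
          obtain ⟨e', he', rfl⟩ := hy
          rw [Finset.mem_range]
          exact he'.2
        rw [Finset.card_image_of_injOn] at this
        · rwa [Finset.card_range] at this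
        · intro a ha b hb hab
          simp only [coe_filter, mem_univ, true_and, Set.mem_ofPred_eq] at ha hb
          exact hβ a b (ha.1.trans hb.1.symm) hab
      rw [Finset.filter_or]
      refine lt_of_le_of_lt (Finset.card_union_le _ _) ?_
      have := hf e
      omega)
  refine ⟨c, fun e => h1 e (mem_univ _), fun e e' hh hc => ?_, fun e e' hh hc => ?_⟩
  · by_contra hne
    exact h2 e (mem_univ _) e' (mem_univ _) hne (Or.inl hh) hc
  · by_contra hne
    exact h2 e (mem_univ _) e' (mem_univ _) hne (Or.inr hh) hc

/-- Regular bipartite multigraphs are properly edge colourable (via Hall's theorem). -/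
lemma konig_regular {V : Type*} [Fintype V] [DecidableEq V] [Fintype E] [DecidableEq E]
    (α β : E → V) (k : ℕ) (S : Finset E)
    (hα : ∀ v, (S.filter (fun e => α e = v)).card = k)
    (hβ : ∀ v, (S.filter (fun e => β e = v)).card = k) :
    ∃ f : E → ℕ, (∀ e ∈ S, f e < k) ∧
      (∀ e ∈ S, ∀ e' ∈ S, α e = α e' → f e = f e' → e = e') ∧
      (∀ e ∈ S, ∀ e' ∈ S, β e = β e' → f e = f e' → e = e') := by
  classical
  induction k generalizing S with
  | zero =>
    have hS : S = ∅ := by
      rw [Finset.eq_empty_iff_forall_notMem]
      intro e he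
      have := hα (α e)
      rw [Finset.card_eq_zero] at this
      have h2 : e ∈ S.filter (fun e' => α e' = α e) := by simp [he]
      rw [this] at h2
      simp at h2
    subst hS
    exact ⟨fun _ => 0, by simp, by simp, by simp⟩
  | succ k ih =>
    -- Hall's theorem gives a perfect matching
    let t : V → Finset V := fun v => (S.filter (fun e => α e = v)).image β
    have hall : ∀ A : Finset V, A.card ≤ (A.biUnion t).card := by
      intro A
      have h1 : (S.filter (fun e => α e ∈ A)).card = A.card * (k + 1) := by
        rw [Finset.card_eq_sum_card_fiberwise (f := α) (t := A)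
          (fun e he => by simpa using (Finset.mem_filter.1 he).2)]
        rw [Finset.sum_congr rfl (g := fun _ => k + 1)]
        · rw [Finset.sum_const, smul_eq_mul]
        · intro v hv
          rw [← hα v]
          congr 1
          ext e
          simp only [mem_filter]
          constructor
          · rintro ⟨⟨h1, h2⟩, h3⟩; exact ⟨h1, h3⟩
          · rintro ⟨h1, h3⟩; exact ⟨⟨h1, by rw [h3]; exact hv⟩, h3⟩
      have h2 : (S.filter (fun e => β e ∈ A.biUnion t)).card = (A.biUnion t).card * (k + 1) := by
        rw [Finset.card_eq_sum_card_fiberwise (f := β) (t := A.biUnion t)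
          (fun e he => by simpa using (Finset.mem_filter.1 he).2)]
        rw [Finset.sum_congr rfl (g := fun _ => k + 1)]
        · rw [Finset.sum_const, smul_eq_mul]
        · intro v hv
          rw [← hβ v]
          congr 1
          ext e
          simp only [mem_filter]
          constructor
          · rintro ⟨⟨h1, h2⟩, h3⟩; exact ⟨h1, h3⟩
          · rintro ⟨h1, h3⟩; exact ⟨⟨h1, by rw [h3]; exact hv⟩, h3⟩
      have h3 : S.filter (fun e => α e ∈ A) ⊆ S.filter (fun e => β e ∈ A.biUnion t) := by
        intro e he
        rw [Finset.mem_filter] at he ⊢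
        refine ⟨he.1, ?_⟩
        rw [Finset.mem_biUnion]
        refine ⟨α e, he.2, ?_⟩
        simp only [t, mem_image, mem_filter]
        exact ⟨e, ⟨he.1, rfl⟩, rfl⟩
      have h4 := Finset.card_le_card h3
      rw [h1, h2] at h4
      exact Nat.le_of_mul_le_mul_right h4 (Nat.succ_pos k)
    obtain ⟨g, hginj, hg⟩ := (Finset.all_card_le_biUnion_card_iff_exists_injective t).1 hall
    have hgbij : Function.Bijective g := Finite.injective_iff_bijective.1 hginj
    have hm : ∀ v, ∃ e, e ∈ S ∧ α e = v ∧ β e = g v := by
      intro v
      have := hg v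
      simp only [t, mem_image, mem_filter] at this
      obtain ⟨e, ⟨h1, h2⟩, h3⟩ := this
      exact ⟨e, h1, h2, h3⟩
    choose m hm1 hm2 hm3 using hm
    let P : Finset E := univ.image m
    have hPS : P ⊆ S := by
      intro e he
      simp only [P, mem_image, mem_univ, true_and] at he
      obtain ⟨v, rfl⟩ := he
      exact hm1 v
    have hPα : ∀ v, P.filter (fun e => α e = v) = {m v} := by
      intro v
      ext e
      simp only [P, mem_filter, mem_image, mem_univ, true_and, mem_singleton]
      constructor
      · rintro ⟨⟨w, rfl⟩, h⟩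
        rw [hm2] at h
        rw [h]
      · rintro rfl
        exact ⟨⟨v, rfl⟩, hm2 v⟩
    have hPβ : ∀ v, ∃ w, P.filter (fun e => β e = v) = {m w} := by
      intro v
      obtain ⟨w, rfl⟩ := hgbij.2 v
      refine ⟨w, ?_⟩
      ext e
      simp only [P, mem_filter, mem_image, mem_univ, true_and, mem_singleton]
      constructor
      · rintro ⟨⟨w', rfl⟩, h⟩
        rw [hm3] at h
        rw [hginj h]
      · rintro rfl
        exact ⟨⟨w, rfl⟩, hm3 w⟩
    obtain ⟨f, hf1, hf2, hf3⟩ := ih (S \ P)
      (by
        intro v
        have h1 : (S \ P).filter (fun e => α e = v) =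
            S.filter (fun e => α e = v) \ P.filter (fun e => α e = v) := by
          ext e; simp only [mem_filter, mem_sdiff]; tauto
        rw [h1, Finset.card_sdiff_of_subset (Finset.filter_subset_filter _ hPS), hα, hPα]
        simp)
      (by
        intro v
        have h1 : (S \ P).filter (fun e => β e = v) =
            S.filter (fun e => β e = v) \ P.filter (fun e => β e = v) := by
          ext e; simp only [mem_filter, mem_sdiff]; tauto
        obtain ⟨w, hw⟩ := hPβ v
        rw [h1, Finset.card_sdiff_of_subset (Finset.filter_subset_filter _ hPS), hβ, hw]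
        simp)
    refine ⟨fun e => if e ∈ P then k else f e, ?_, ?_, ?_⟩
    · intro e he
      by_cases heP : e ∈ P
      · simp [heP]
      · simp only [if_neg heP]
        have := hf1 e (mem_sdiff.2 ⟨he, heP⟩)
        omega
    · intro e he e' he' hh hc
      by_cases heP : e ∈ P <;> by_cases he'P : e' ∈ P
      · have h1 : e ∈ P.filter (fun e => α e = α e') := by rw [mem_filter]; exact ⟨heP, hh⟩
        have h2 : e' ∈ P.filter (fun e => α e = α e') := by rw [mem_filter]; exact ⟨he'P, rfl⟩
        rw [hPα, mem_singleton] at h1 h2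
        exact h1.trans h2.symm
      · exfalso
        simp only [if_pos heP, if_neg he'P] at hc
        have := hf1 e' (mem_sdiff.2 ⟨he', he'P⟩)
        omega
      · exfalso
        simp only [if_neg heP, if_pos he'P] at hc
        have := hf1 e (mem_sdiff.2 ⟨he, heP⟩)
        omega
      · simp only [if_neg heP, if_neg he'P] at hc
        exact hf2 e (mem_sdiff.2 ⟨he, heP⟩) e' (mem_sdiff.2 ⟨he', he'P⟩) hh hc
    · intro e he e' he' hh hc
      by_cases heP : e ∈ P <;> by_cases he'P : e' ∈ P
      · have h1 : e ∈ P.filter (fun e => β e = β e') := by rw [mem_filter]; exact ⟨heP, hh⟩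
        have h2 : e' ∈ P.filter (fun e => β e = β e') := by rw [mem_filter]; exact ⟨he'P, rfl⟩
        obtain ⟨w, hw⟩ := hPβ (β e')
        rw [hw, mem_singleton] at h1 h2
        exact h1.trans h2.symm
      · exfalso
        simp only [if_pos heP, if_neg he'P] at hc
        have := hf1 e' (mem_sdiff.2 ⟨he', he'P⟩)
        omega
      · exfalso
        simp only [if_neg heP, if_pos he'P] at hc
        have := hf1 e (mem_sdiff.2 ⟨he, heP⟩)
        omega
      · simp only [if_neg heP, if_neg he'P] at hc
        exact hf3 e (mem_sdiff.2 ⟨he, heP⟩) e' (mem_sdiff.2 ⟨he', he'P⟩) hh hc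

/-- Bipartite multigraphs of maximum degree at most `k` are properly `k`-edge-colourable. -/
lemma konig [Fintype E] [Fintype X] [Fintype Y] [DecidableEq X] [DecidableEq Y]
    (α : E → X) (β : E → Y) (k : ℕ)
    (hα : ∀ x, (univ.filter (fun e => α e = x)).card ≤ k)
    (hβ : ∀ y, (univ.filter (fun e => β e = y)).card ≤ k) :
    ∃ f : E → ℕ, (∀ e, f e < k) ∧ (∀ e e', α e = α e' → f e = f e' → e = e') ∧
      (∀ e e', β e = β e' → f e = f e' → e = e') := by
  classical
  let V := X ⊕ Y
  let α1 : E → V := fun e => Sum.inl (α e)
  let β1 : E → V := fun e => Sum.inr (β e)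
  let nA : V → ℕ := fun v => (univ.filter (fun e => α1 e = v)).card
  let nB : V → ℕ := fun v => (univ.filter (fun e => β1 e = v)).card
  have hnA : ∀ v, nA v ≤ k := by
    rintro (x | y)
    · refine (Finset.card_le_card ?_).trans (hα x)
      intro e he
      simp only [α1, mem_filter, mem_univ, true_and] at he ⊢
      exact Sum.inl_injective he
    · simp [nA, α1]
  have hnB : ∀ v, nB v ≤ k := by
    rintro (x | y)
    · simp [nB, β1]
    · refine (Finset.card_le_card ?_).trans (hβ y)
      intro e he
      simp only [β1, mem_filter, mem_univ, true_and] at he ⊢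
      exact Sum.inr_injective he
  have hsA : ∑ v, nA v = Fintype.card E := by
    rw [← Finset.card_univ]
    exact (Finset.card_eq_sum_card_fiberwise (f := α1) (t := univ) (fun e _ => by simp)).symm
  have hsB : ∑ v, nB v = Fintype.card E := by
    rw [← Finset.card_univ]
    exact (Finset.card_eq_sum_card_fiberwise (f := β1) (t := univ) (fun e _ => by simp)).symm
  let DA := Σ v : V, Fin (k - nA v)
  let DB := Σ v : V, Fin (k - nB v)
  have hcard : Fintype.card DA = Fintype.card DB := by
    simp only [DA, DB, Fintype.card_sigma, Fintype.card_fin]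
    have h1 : ∑ v, (k - nA v) + ∑ v, nA v = ∑ v : V, k := by
      rw [← Finset.sum_add_distrib]
      exact Finset.sum_congr rfl (fun v _ => Nat.sub_add_cancel (hnA v))
    have h2 : ∑ v, (k - nB v) + ∑ v, nB v = ∑ v : V, k := by
      rw [← Finset.sum_add_distrib]
      exact Finset.sum_congr rfl (fun v _ => Nat.sub_add_cancel (hnB v))
    rw [hsA] at h1
    rw [hsB] at h2
    omega
  let ψ : DA ≃ DB := Fintype.equivOfCardEq hcard
  let α' : E ⊕ DA → V := Sum.elim α1 (fun d => d.1)
  let β' : E ⊕ DA → V := Sum.elim β1 (fun d => (ψ d).1)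
  obtain ⟨f, hf1, hf2, hf3⟩ := konig_regular α' β' k univ
    (by
      intro v
      rw [Finset.card_filter, Fintype.sum_sum_type]
      have e1 : (∑ x, if α' (Sum.inl x) = v then 1 else 0) = nA v :=
        (Finset.card_filter _ _).symm
      have e2 : (∑ d : DA, if α' (Sum.inr d) = v then 1 else 0) = k - nA v := by
        change (∑ d : DA, if d.1 = v then 1 else 0) = k - nA v
        rw [Fintype.sum_sigma]
        simp only [Finset.sum_const, Finset.card_univ, Fintype.card_fin, smul_eq_mul]
        rw [Finset.sum_eq_single v]
        · simp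
        · intro w _ hw
          simp [hw]
        · simp
      rw [e1, e2]
      have := hnA v
      omega)
    (by
      intro v
      rw [Finset.card_filter, Fintype.sum_sum_type]
      have e1 : (∑ x, if β' (Sum.inl x) = v then 1 else 0) = nB v :=
        (Finset.card_filter _ _).symm
      have e2 : (∑ d : DA, if β' (Sum.inr d) = v then 1 else 0) = k - nB v := by
        change (∑ d : DA, if (ψ d).1 = v then 1 else 0) = k - nB v
        rw [Equiv.sum_comp ψ (fun d => if d.1 = v then 1 else 0)]
        rw [Fintype.sum_sigma]
        simp only [Finset.sum_const, Finset.card_univ, Fintype.card_fin, smul_eq_mul]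
        rw [Finset.sum_eq_single v]
        · simp
        · intro w _ hw
          simp [hw]
        · simp
      rw [e1, e2]
      have := hnB v
      omega)
  refine ⟨fun e => f (Sum.inl e), fun e => hf1 _ (mem_univ _), fun e e' h1 h2 => ?_,
    fun e e' h1 h2 => ?_⟩
  · exact Sum.inl_injective (hf2 _ (mem_univ _) _ (mem_univ _) (by simp [α', α1, h1]) h2)
  · exact Sum.inl_injective (hf3 _ (mem_univ _) _ (mem_univ _) (by simp [β', β1, h1]) h2)

/-- Splitting the fibres of `α` into blocks of size at most `k`. -/
lemma split [Fintype E] [DecidableEq X] (α : E → X) (a : X → ℕ) (k : ℕ) (hk : 0 < k)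
    (h : ∀ x, (univ.filter (fun e => α e = x)).card ≤ k * a x) :
    ∃ i : (e : E) → Fin (a (α e)), ∀ x, ∀ j : ℕ,
      (univ.filter (fun e => α e = x ∧ (i e : ℕ) = j)).card ≤ k := by
  classical
  let F : X → Finset E := fun x => univ.filter (fun e => α e = x)
  have hmem : ∀ e, e ∈ F (α e) := fun e => by simp [F]
  let idx : E → ℕ := fun e => ((F (α e)).equivFin ⟨e, hmem e⟩).val
  have hidx : ∀ e, idx e < (F (α e)).card := fun e => Fin.isLt _
  have hinj : ∀ e e', α e = α e' → idx e = idx e' → e = e' := by
    intro e e' h1 h2
    simp only [idx] at h2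
    have key : ∀ (x x' : X) (hx : x = x') (he : e ∈ F x) (he' : e' ∈ F x'),
        ((F x).equivFin ⟨e, he⟩).val = ((F x').equivFin ⟨e', he'⟩).val → e = e' := by
      intro x x' hx he he' hh
      subst hx
      have := (F x).equivFin.injective (Fin.ext hh)
      simpa using this
    exact key _ _ h1 _ _ h2
  refine ⟨fun e => ⟨idx e / k, ?_⟩, ?_⟩
  · rw [Nat.div_lt_iff_lt_mul hk, mul_comm]
    exact lt_of_lt_of_le (hidx e) (h (α e))
  · intro x j
    have h1 : ((univ.filter (fun e => α e = x ∧ idx e / k = j)).image idx).card ≤
        (Finset.Ico (j * k) (j * k + k)).card := by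
      refine Finset.card_le_card ?_
      intro y hy
      simp only [mem_image, mem_filter, mem_univ, true_and] at hy
      obtain ⟨e, ⟨_, he⟩, rfl⟩ := hy
      rw [Finset.mem_Ico]
      rw [Nat.div_eq_iff hk] at he
      constructor
      · exact he.1
      · have := he.2
        omega
    rw [Finset.card_image_of_injOn] at h1
    · rw [Nat.card_Ico] at h1
      have h2 : j * k + k - j * k = k := by omega
      rw [h2] at h1
      exact h1
    · intro e he e' he' hh
      simp only [coe_filter, mem_univ, true_and, Set.mem_ofPred_eq] at he he'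
      exact hinj e e' (he.1.trans he'.1.symm) hh

lemma cap_key [Fintype E] {Z : Type*} [DecidableEq Z] (γ : E → Z) (w : Z → ℕ)
    (l : (e : E) → Fin (w (γ e))) (c : E → ℕ)
    (hinj : ∀ e e', (⟨γ e, l e⟩ : Σ z : Z, Fin (w z)) = ⟨γ e', l e'⟩ → c e = c e' → e = e')
    (z : Z) (col : ℕ) : (univ.filter (fun e => γ e = z ∧ c e = col)).card ≤ w z := by
  classical
  have h1 : ((univ.filter (fun e => γ e = z ∧ c e = col)).image (fun e => (l e).val)).card ≤
      (Finset.range (w z)).card := by
    refine Finset.card_le_card ?_
    intro y hy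
    simp only [mem_image, mem_filter, mem_univ, true_and] at hy
    obtain ⟨e, ⟨he1, _⟩, rfl⟩ := hy
    rw [Finset.mem_range, ← he1]
    exact (l e).isLt
  rw [Finset.card_image_of_injOn, Finset.card_range] at h1
  · exact h1
  · intro e he e' he' hh
    simp only [coe_filter, mem_univ, true_and, Set.mem_ofPred_eq] at he he'
    simp only at hh
    refine hinj e e' ?_ (he.2.trans he'.2.symm)
    have h2 : γ e = γ e' := he.1.trans he'.1.symm
    have key2 : ∀ (z z' : Z) (hz : z = z') (p : Fin (w z)) (q : Fin (w z')),
        p.val = q.val → (⟨z, p⟩ : Σ z : Z, Fin (w z)) = ⟨z', q⟩ := by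
      intro z z' hz p q hpq
      subst hz
      rw [Fin.ext hpq]
    exact key2 _ _ h2 _ _ hh

/-- Galvin's theorem with capacities: if every `x` has degree at most `k * a x` and every `y` has
degree at most `k * b y`, then for lists of size at least `k` there is a list colouring in which each
colour occurs at most `a x` times at `x` and at most `b y` times at `y`. -/
lemma galvin_cap [Fintype E] [Fintype X] [Fintype Y] [DecidableEq X] [DecidableEq Y]
    (α : E → X) (β : E → Y) (a : X → ℕ) (b : Y → ℕ) (k : ℕ) (hk : 0 < k)
    (hα : ∀ x, (univ.filter (fun e => α e = x)).card ≤ k * a x)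
    (hβ : ∀ y, (univ.filter (fun e => β e = y)).card ≤ k * b y)
    (L : E → Finset ℕ) (hL : ∀ e, k ≤ (L e).card) :
    ∃ c : E → ℕ, (∀ e, c e ∈ L e) ∧
      (∀ x col, (univ.filter (fun e => α e = x ∧ c e = col)).card ≤ a x) ∧
      (∀ y col, (univ.filter (fun e => β e = y ∧ c e = col)).card ≤ b y) := by
  classical
  obtain ⟨i, hi⟩ := split α a k hk hα
  obtain ⟨j, hj⟩ := split β b k hk hβ
  let α' : E → Σ x : X, Fin (a x) := fun e => ⟨α e, i e⟩
  let β' : E → Σ y : Y, Fin (b y) := fun e => ⟨β e, j e⟩
  obtain ⟨f, hf1, hf2, hf3⟩ := konig α' β' k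
    (by
      rintro ⟨x, z⟩
      refine (Finset.card_le_card ?_).trans (hi x z.val)
      intro e he
      simp only [α', mem_filter, mem_univ, true_and] at he ⊢
      have h1 := congrArg Sigma.fst he
      simp only at h1
      subst h1
      simp only [Sigma.mk.injEq, heq_eq_eq, true_and] at he
      exact ⟨rfl, by rw [he]⟩)
    (by
      rintro ⟨y, z⟩
      refine (Finset.card_le_card ?_).trans (hj y z.val)
      intro e he
      simp only [β', mem_filter, mem_univ, true_and] at he ⊢
      have h1 := congrArg Sigma.fst he
      simp only at h1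
      subst h1
      simp only [Sigma.mk.injEq, heq_eq_eq, true_and] at he
      exact ⟨rfl, by rw [he]⟩)
  obtain ⟨c, hc1, hc2, hc3⟩ := galvin_of_coloring α' β' f k hf1 hf2 hf3 L hL
  exact ⟨c, hc1, fun x col => cap_key α a i c hc2 x col, fun y col => cap_key β b j c hc3 y col⟩

end Pool.Agent.helper60.Galvin
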