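import Mathlib

/-!
Tournaments with prescribed scores (Landau), through Hall's theorem.
The edges of the complete graph on `Fin n` are the two-element finsets.
-/

open Finset

namespace Pool.Agent.helper60.Landau

/-- the edges of the complete graph on `Fin n` -/
abbrev Edge (n : ℕ) := {e : Finset (Fin n) // e.card = 2}

/-- every vertex lies in `n - 1` edges -/
lemma card_edges_at {n : ℕ} (v : Fin n) :
    (univ.filter (fun e : Edge n => v ∈ e.1)).card = n - 1 := by
  classical
  have h : (univ.filter (fun e : Edge n => v ∈ e.1)).card = (univ.erase v : Finset (Fin n)).card := by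
    symm
    refine Finset.card_bij (fun w hw => ⟨{v, w}, Finset.card_pair (Finset.ne_of_mem_erase hw).symm⟩)
      ?_ ?_ ?_
    · intro w hw
      simp
    · intro w hw w' hw' hh
      simp only [Subtype.mk.injEq] at hh
      have h1 : w ∈ ({v, w'} : Finset (Fin n)) := by rw [← hh]; simp
      simp only [mem_insert, mem_singleton] at h1
      rcases h1 with h1 | h1
      · exact absurd h1 (Finset.ne_of_mem_erase hw)
      · exact h1
    · rintro ⟨e, he⟩ hv
      simp only [mem_filter, mem_univ, true_and] at hv
      obtain ⟨x, y, hxy, rfl⟩ := Finset.card_eq_two.1 he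
      simp only [mem_insert, mem_singleton] at hv
      rcases hv with rfl | rfl
      · exact ⟨y, by simp [hxy.symm], rfl⟩
      · exact ⟨x, by simp [hxy], by simp [Finset.pair_comm]⟩
  rw [h, Finset.card_erase_of_mem (mem_univ _)]
  simp

/-- Landau's theorem (existence of a tournament with scores `s`). -/
lemma landau {n : ℕ} (s : Fin n → ℕ) (hs : ∑ v, s v = n.choose 2)
    (hA : ∀ A : Finset (Fin n), A.card.choose 2 ≤ ∑ v ∈ A, s v) :
    ∃ o : Edge n → Fin n, (∀ e, o e ∈ e.1) ∧
      ∀ v, (univ.filter (fun e => o e = v)).card = s v := by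
  classical
  let C := Σ v : Fin n, Fin (s v)
  let t : Edge n → Finset C := fun e => univ.filter (fun c : C => c.1 ∈ e.1)
  have hall : ∀ F : Finset (Edge n), F.card ≤ (F.biUnion t).card := by
    intro F
    let V : Finset (Fin n) := F.biUnion (fun e => e.1)
    have h1 : F.card ≤ V.card.choose 2 := by
      rw [← Finset.card_powersetCard]
      rw [← Finset.card_map (Function.Embedding.subtype _)]
      refine Finset.card_le_card ?_
      intro e he
      rw [Finset.mem_map] at he
      obtain ⟨e', he', rfl⟩ := he
      rw [Finset.mem_powersetCard]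
      refine ⟨?_, e'.2⟩
      exact Finset.subset_biUnion_of_mem (fun e : Edge n => e.1) he'
    have h2 : (F.biUnion t).card = ∑ v ∈ V, s v := by
      have : F.biUnion t = V.sigma (fun v => (univ : Finset (Fin (s v)))) := by
        ext c
        constructor
        · intro hc
          simp only [t, mem_biUnion, mem_filter, mem_univ, true_and] at hc
          refine Finset.mem_sigma.2 ⟨?_, mem_univ _⟩
          simpa [V] using hc
        · intro hc
          have h1 := (Finset.mem_sigma.1 hc).1
          simp only [t, mem_biUnion, mem_filter, mem_univ, true_and]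
          simpa [V] using h1
      rw [this, Finset.card_sigma]
      simp
    rw [h2]
    exact h1.trans (hA V)
  obtain ⟨g, hginj, hg⟩ := (Finset.all_card_le_biUnion_card_iff_exists_injective t).1 hall
  have hmem : ∀ e, (g e).1 ∈ e.1 := by
    intro e
    have := hg e
    simpa [t] using this
  have hle : ∀ v, (univ.filter (fun e => (g e).1 = v)).card ≤ s v := by
    intro v
    have h1 : ((univ.filter (fun e => (g e).1 = v)).map ⟨g, hginj⟩).card ≤
        (univ.filter (fun c : C => c.1 = v)).card := by
      refine Finset.card_le_card ?_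
      intro c hc
      rw [Finset.mem_map] at hc
      obtain ⟨e, he, rfl⟩ := hc
      simpa using he
    rw [Finset.card_map] at h1
    refine h1.trans ?_
    rw [Finset.card_filter]
    change (∑ c : (Σ v : Fin n, Fin (s v)), if c.1 = v then 1 else 0) ≤ s v
    rw [Fintype.sum_sigma]
    simp only [Finset.sum_const, Finset.card_univ, Fintype.card_fin, smul_eq_mul]
    rw [Finset.sum_eq_single v]
    · simp
    · intro w _ hw
      simp [hw]
    · simp
  have htot : ∑ v, (univ.filter (fun e => (g e).1 = v)).card = ∑ v, s v := by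
    rw [hs]
    rw [← Finset.card_eq_sum_card_fiberwise (f := fun e => (g e).1) (t := univ)
      (fun e _ => by simp)]
    rw [Finset.card_univ, Fintype.card_finset_len, Fintype.card_fin]
  refine ⟨fun e => (g e).1, hmem, fun v => ?_⟩
  exact (Finset.sum_eq_sum_iff_of_le (fun v _ => hle v)).1 htot v (mem_univ v)

/-- the other endpoint of an edge -/
lemma exists_other {n : ℕ} (o : Edge n → Fin n) (ho : ∀ e, o e ∈ e.1) :
    ∃ o' : Edge n → Fin n, ∀ e, o e ≠ o' e ∧ e.1 = {o e, o' e} := by
  classical
  have : ∀ e : Edge n, ∃ w, o e ≠ w ∧ e.1 = {o e, w} := by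
    intro e
    obtain ⟨x, y, hxy, he⟩ := Finset.card_eq_two.1 e.2
    have h := ho e
    rw [he] at h
    simp only [mem_insert, mem_singleton] at h
    rcases h with h | h
    · exact ⟨y, by rw [h]; exact hxy, by rw [h]; exact he⟩
    · exact ⟨x, by rw [h]; exact hxy.symm, by rw [h, Finset.pair_comm]; exact he⟩
  choose o' ho' using this
  exact ⟨o', ho'⟩

lemma card_add {n : ℕ} (o o' : Edge n → Fin n) (h : ∀ e, o e ≠ o' e ∧ e.1 = {o e, o' e})
    (v : Fin n) : (univ.filter (fun e => o e = v)).card + (univ.filter (fun e => o' e = v)).card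
      = n - 1 := by
  classical
  rw [← card_edges_at v, ← Finset.card_union_of_disjoint]
  · congr 1
    ext e
    simp only [mem_union, mem_filter, mem_univ, true_and]
    rw [(h e).2]
    simp only [mem_insert, mem_singleton, eq_comm]
  · rw [Finset.disjoint_left]
    intro e he he'
    simp only [mem_filter, mem_univ, true_and] at he he'
    exact (h e).1 (he.trans he'.symm)

/-- Landau's condition for the two-valued score sequence `(B^h, b^h)` on `2h` vertices. -/
lemma two_valued (h B b : ℕ) (hB : B + b + 1 = 2 * h) (hb : h ≤ 2 * b + 1) (hbB : b ≤ B) (j1 j2 : ℕ)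
    (hj1 : j1 ≤ h) (hj2 : j2 ≤ h) : (j1 + j2).choose 2 ≤ B * j1 + b * j2 := by
  rw [Nat.choose_two_right]
  apply Nat.div_le_of_le_mul
  rcases Nat.lt_or_ge (j1 + j2) 1 with h0 | h0
  · have : j1 + j2 = 0 := by omega
    rw [this]; simp
  obtain ⟨j, hj⟩ : ∃ j, j1 + j2 = j + 1 := ⟨j1 + j2 - 1, by omega⟩
  rw [hj]
  simp only [Nat.add_sub_cancel]
  -- (j+1) * j ≤ 2 (B j1 + b j2)
  zify at *
  rcases le_or_gt (j1 + j2) h with hc | hc
  · -- all of them could be in the second half
    have h1 : (j : ℤ) ≤ 2 * b := by
      have : ((j1 : ℤ) + j2) ≤ h := by exact_mod_cast hc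
      linarith
    have h2 : ((j : ℤ) + 1) * j ≤ (j + 1) * (2 * b) := by
      apply mul_le_mul_of_nonneg_left h1 (by positivity)
    have h3 : (B : ℤ) * j1 ≥ b * j1 := mul_le_mul_of_nonneg_right hbB (by positivity)
    nlinarith
  · have hc' : (h : ℤ) < j1 + j2 := by exact_mod_cast hc
    -- put `i = 2h - j1 - j2`
    obtain ⟨i, hi⟩ : ∃ i : ℤ, i = 2 * h - j1 - j2 := ⟨_, rfl⟩
    have hi0 : 0 ≤ i := by linarith
    have hih : i ≤ h - 1 := by linarith
    have hj' : (j : ℤ) = 2 * h - i - 1 := by linarith
    have hkey : i * (2 * B) ≤ i * (4 * h - 2 - i) := by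
      apply mul_le_mul_of_nonneg_left _ hi0
      linarith
    have hj1' : (j1 : ℤ) = 2 * h - i - j2 := by linarith
    have hBb : ((B : ℤ) - b) * j2 ≤ (B - b) * h := by
      apply mul_le_mul_of_nonneg_left hj2
      linarith
    have hBe : (B : ℤ) = 2 * h - 1 - b := by linarith
    rw [hj', hj1']
    have e1 : 2 * ((B : ℤ) * (2 * h - i - j2) + b * j2) =
        2 * B * (2 * h) - i * (2 * B) - 2 * ((B - b) * j2) := by ring
    rw [e1]
    have e2 : (2 * (h : ℤ) - i - 1 + 1) * (2 * h - i - 1) =
        2 * h * (2 * h - 1) - i * (4 * h - 2 - i) - i := by ring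
    rw [e2]
    have e3 : 2 * (B : ℤ) * (2 * h) - 2 * ((B - b) * h) = 2 * h * (2 * h - 1) := by
      rw [hBe]; ring
    linarith

end Pool.Agent.helper60.Landau
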